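import Mathlib

set_option autoImplicit false

open scoped Pointwise

namespace Pool.Agent.Results.MP_2a6d80_co.RhombicFourteen

/-- Euclidean 3-space. -/
abbrev E3 : Type := EuclideanSpace ℝ (Fin 3)

/-- An o-symmetric convex body in 3-space: compact, convex, with nonempty interior, and K = -K. -/
def IsSymmetricConvexBody (K : Set E3) : Prop :=
  IsCompact K ∧ Convex ℝ K ∧ (interior K).Nonempty ∧ K = -K

/-- The norm induced by K: the infimum of the numbers l > 0 with x in l K. -/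
noncomputable def normK (K : Set E3) (x : E3) : ℝ :=
  sInf {l : ℝ | 0 < l ∧ x ∈ l • K}

/-- The point p illuminates the point q: the half-line starting at p and passing through q meets
the interior of K at a point x that does not lie between p and q. -/
def Illuminates (K : Set E3) (p q : E3) : Prop :=
  ∃ x ∈ interior K, (∃ s : ℝ, 0 ≤ s ∧ x = p + s • (q - p)) ∧ x ∉ segment ℝ p q

/-- The set P (finite or infinite) of points outside K illuminates K: every boundary point of K is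
illuminated by at least one point of P. -/
def IlluminatesBody (K P : Set E3) : Prop :=
  (∀ p ∈ P, p ∉ K) ∧ ∀ q ∈ frontier K, ∃ p ∈ P, Illuminates K p q

/-- The illumination parameter: the infimum, over all sets P of points outside K that illuminate K,
of the sum of the K-norms of the points of P (a sum in [0, ∞], so infinite sets are allowed). -/
noncomputable def ill (K : Set E3) : ENNReal :=
  ⨅ (P : Set E3) (_ : IlluminatesBody K P), ∑' p : P, ENNReal.ofReal (normK K p)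

/-- The rhombic dodecahedron with the 14 vertices (±1,±1,±1), (±2,0,0), (0,±2,0), (0,0,±2): the
points (x,y,z) with |x|+|y| ≤ 2, |y|+|z| ≤ 2 and |x|+|z| ≤ 2. -/
def rhombicDodecahedron : Set E3 :=
  {x | |x 0| + |x 1| ≤ 2 ∧ |x 1| + |x 2| ≤ 2 ∧ |x 0| + |x 2| ≤ 2}

/-! ### The body -/

theorem rd_convex : Convex ℝ rhombicDodecahedron := by
  intro x hx y hy a b ha hb hab
  obtain ⟨hx1, hx2, hx3⟩ := hx
  obtain ⟨hy1, hy2, hy3⟩ := hy
  have key : ∀ i : Fin 3, |(a • x + b • y) i| ≤ a * |x i| + b * |y i| := by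
    intro i
    have : (a • x + b • y) i = a * x i + b * y i := by simp
    rw [this]
    calc |a * x i + b * y i| ≤ |a * x i| + |b * y i| := abs_add_le _ _
      _ = a * |x i| + b * |y i| := by rw [abs_mul, abs_mul, abs_of_nonneg ha, abs_of_nonneg hb]
  have hsum : ∀ u v : ℝ, u ≤ 2 → v ≤ 2 → a * u + b * v ≤ 2 := by
    intro u v hu hv
    nlinarith [mul_le_mul_of_nonneg_left hu ha, mul_le_mul_of_nonneg_left hv hb]
  refine ⟨?_, ?_, ?_⟩
  · have := hsum _ _ hx1 hy1
    linarith [key 0, key 1]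
  · have := hsum _ _ hx2 hy2
    linarith [key 1, key 2]
  · have := hsum _ _ hx3 hy3
    linarith [key 0, key 2]

theorem coord_cont (i : Fin 3) : Continuous (fun x : E3 => x i) := by
  fun_prop

theorem rd_closed : IsClosed rhombicDodecahedron := by
  have h0 := coord_cont 0
  have h1 := coord_cont 1
  have h2 := coord_cont 2
  apply IsClosed.inter
  · exact isClosed_le (h0.abs.add h1.abs) continuous_const
  apply IsClosed.inter
  · exact isClosed_le (h1.abs.add h2.abs) continuous_const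
  · exact isClosed_le (h0.abs.add h2.abs) continuous_const

theorem rd_compact : IsCompact rhombicDodecahedron := by
  apply Metric.isCompact_of_isClosed_isBounded rd_closed
  apply (Metric.isBounded_closedBall (x := (0 : E3)) (r := 4)).subset
  intro x hx
  obtain ⟨h1, h2, h3⟩ := hx
  rw [mem_closedBall_zero_iff, EuclideanSpace.norm_eq, Real.sqrt_le_left (by norm_num)]
  simp only [Fin.sum_univ_three, Real.norm_eq_abs]
  have a0 := abs_nonneg (x 0)
  have a1 := abs_nonneg (x 1)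
  have a2 := abs_nonneg (x 2)
  have b0 : |x 0| ≤ 2 := by linarith
  have b1 : |x 1| ≤ 2 := by linarith
  have b2 : |x 2| ≤ 2 := by linarith
  nlinarith

/-- Points satisfying the three inequalities strictly are interior. -/
theorem mem_interior (x : E3) (h1 : |x 0| + |x 1| < 2) (h2 : |x 1| + |x 2| < 2)
    (h3 : |x 0| + |x 2| < 2) : x ∈ interior rhombicDodecahedron := by
  have c0 := coord_cont 0
  have c1 := coord_cont 1
  have c2 := coord_cont 2
  have hopen : IsOpen {x : E3 | |x 0| + |x 1| < 2 ∧ |x 1| + |x 2| < 2 ∧ |x 0| + |x 2| < 2} := by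
    apply IsOpen.inter
    · exact isOpen_lt (c0.abs.add c1.abs) continuous_const
    apply IsOpen.inter
    · exact isOpen_lt (c1.abs.add c2.abs) continuous_const
    · exact isOpen_lt (c0.abs.add c2.abs) continuous_const
  refine interior_maximal ?_ hopen (show x ∈ {x : E3 | |x 0| + |x 1| < 2 ∧ |x 1| + |x 2| < 2 ∧
    |x 0| + |x 2| < 2} from ⟨h1, h2, h3⟩)
  rintro y ⟨a, b, c⟩
  exact ⟨a.le, b.le, c.le⟩

theorem zero_mem_interior : (0 : E3) ∈ interior rhombicDodecahedron := by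
  apply mem_interior <;> simp

theorem nhds_zero : rhombicDodecahedron ∈ nhds (0 : E3) :=
  mem_interior_iff_mem_nhds.mp zero_mem_interior

theorem rd_symm : rhombicDodecahedron = -rhombicDodecahedron := by
  ext x
  simp [rhombicDodecahedron]

theorem rd_body : IsSymmetricConvexBody rhombicDodecahedron :=
  ⟨rd_compact, rd_convex, ⟨0, zero_mem_interior⟩, rd_symm⟩

/-! ### Illumination in parametric form -/

theorem illuminates_iff (K : Set E3) (p q : E3) (hpq : p ≠ q) :
    Illuminates K p q ↔ ∃ t : ℝ, 0 < t ∧ q + t • (q - p) ∈ interior K := by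
  constructor
  · rintro ⟨x, hx, ⟨s, hs, rfl⟩, hseg⟩
    refine ⟨s - 1, ?_, ?_⟩
    · by_contra hcon
      apply hseg
      rw [segment_eq_image']
      exact ⟨s, ⟨hs, by linarith⟩, rfl⟩
    · have : q + (s - 1) • (q - p) = p + s • (q - p) := by
        rw [sub_smul, one_smul]; abel
      rw [this]; exact hx
  · rintro ⟨t, ht, hx⟩
    refine ⟨_, hx, ⟨1 + t, by linarith, ?_⟩, ?_⟩
    · rw [add_smul, one_smul]; abel
    · intro hseg
      rw [segment_eq_image'] at hseg
      obtain ⟨θ, ⟨h0, h1⟩, hθ⟩ := hseg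
      have h2 : (1 + t - θ) • (q - p) = 0 := by
        have h3 : p + (1 + t) • (q - p) = q + t • (q - p) := by
          rw [add_smul, one_smul]; abel
        have h4 : p + θ • (q - p) = p + (1 + t) • (q - p) := by rw [h3]; exact hθ
        have h5 := add_left_cancel h4
        rw [sub_smul, ← h5, sub_self]
      rcases smul_eq_zero.mp h2 with h | h
      · linarith
      · exact hpq (sub_eq_zero.mp h).symm

/-! ### Lower bound -/

/-- Strict inequality for interior points, for a valid inequality of the body. -/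
theorem interior_strict (α β γ : ℝ) (hpos : 0 < α * α + β * β + γ * γ)
    (h : ∀ x ∈ rhombicDodecahedron, α * x 0 + β * x 1 + γ * x 2 ≤ 2) (y : E3)
    (hy : y ∈ interior rhombicDodecahedron) : α * y 0 + β * y 1 + γ * y 2 < 2 := by
  let w : E3 := !₂[α, β, γ]
  have hc : Continuous (fun s : ℝ => y + s • w) := by fun_prop
  have hmem : ∀ᶠ s in nhds (0 : ℝ), y + s • w ∈ rhombicDodecahedron := by
    have : (fun s : ℝ => y + s • w) ⁻¹' (interior rhombicDodecahedron) ∈ nhds (0 : ℝ) := by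
      apply hc.continuousAt.preimage_mem_nhds
      simpa using isOpen_interior.mem_nhds hy
    filter_upwards [this] with s hs
    exact interior_subset hs
  have hev : ∀ᶠ s in nhdsWithin (0 : ℝ) (Set.Ioi 0), y + s • w ∈ rhombicDodecahedron :=
    hmem.filter_mono nhdsWithin_le_nhds
  obtain ⟨s, hs, hspos⟩ := (hev.and self_mem_nhdsWithin).exists
  have hspos' : 0 < s := hspos
  have h2 := h _ hs
  have e0 : (y + s • w) 0 = y 0 + s * α := by simp [w]
  have e1 : (y + s • w) 1 = y 1 + s * β := by simp [w]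
  have e2 : (y + s • w) 2 = y 2 + s * γ := by simp [w]
  rw [e0, e1, e2] at h2
  nlinarith [mul_pos hspos' hpos]

/-- The K-norm dominates one half of each facet functional. -/
theorem norm_ge (α β γ : ℝ)
    (h : ∀ x ∈ rhombicDodecahedron, α * x 0 + β * x 1 + γ * x 2 ≤ 2) (p : E3) :
    α * p 0 + β * p 1 + γ * p 2 ≤ 2 * normK rhombicDodecahedron p := by
  change _ ≤ 2 * gauge rhombicDodecahedron p
  apply le_of_forall_gt_imp_ge_of_dense
  intro r hr
  have hlt : gauge rhombicDodecahedron p < r / 2 := by linarith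
  obtain ⟨b, hb0, hbr, hpb⟩ := exists_lt_of_gauge_lt (absorbent_nhds_zero nhds_zero) hlt
  obtain ⟨x, hx, rfl⟩ := hpb
  have h2 := h x hx
  have e0 : (b • x) 0 = b * x 0 := by simp
  have e1 : (b • x) 1 = b * x 1 := by simp
  have e2 : (b • x) 2 = b * x 2 := by simp
  simp only [e0, e1, e2]
  nlinarith [mul_le_mul_of_nonneg_left h2 hb0.le]

/-- If `p` illuminates `q` and the facet inequality is tight at `q`, then `p` violates it. -/
theorem illum_gt (α β γ : ℝ) (hpos : 0 < α * α + β * β + γ * γ)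
    (h : ∀ x ∈ rhombicDodecahedron, α * x 0 + β * x 1 + γ * x 2 ≤ 2) (p q : E3)
    (hq : α * q 0 + β * q 1 + γ * q 2 = 2)
    (hill : ∃ t : ℝ, 0 < t ∧ q + t • (q - p) ∈ interior rhombicDodecahedron) :
    2 < α * p 0 + β * p 1 + γ * p 2 := by
  obtain ⟨t, ht, hmem⟩ := hill
  have h1 := interior_strict α β γ hpos h _ hmem
  have e0 : (q + t • (q - p)) 0 = q 0 + t * (q 0 - p 0) := by simp
  have e1 : (q + t • (q - p)) 1 = q 1 + t * (q 1 - p 1) := by simp
  have e2 : (q + t • (q - p)) 2 = q 2 + t * (q 2 - p 2) := by simp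
  rw [e0, e1, e2] at h1
  have h3 : t * (2 - (α * p 0 + β * p 1 + γ * p 2)) < 0 := by nlinarith
  nlinarith [ht]

/-- A facet functional of the body: one of the 12 functionals ±x±y, ±y±z, ±x±z. -/
def IsFacet (α β γ : ℝ) : Prop :=
  (|α| = 1 ∧ |β| = 1 ∧ γ = 0) ∨ (α = 0 ∧ |β| = 1 ∧ |γ| = 1) ∨ (|α| = 1 ∧ β = 0 ∧ |γ| = 1)

theorem facet_pos {α β γ : ℝ} (h : IsFacet α β γ) : 0 < α * α + β * β + γ * γ := by
  rcases h with ⟨h1, -, -⟩ | ⟨-, h1, -⟩ | ⟨h1, -, -⟩
  · have : α * α = 1 := by rw [← abs_mul_abs_self, h1]; norm_num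
    nlinarith [mul_self_nonneg β, mul_self_nonneg γ]
  · have : β * β = 1 := by rw [← abs_mul_abs_self, h1]; norm_num
    nlinarith [mul_self_nonneg α, mul_self_nonneg γ]
  · have : α * α = 1 := by rw [← abs_mul_abs_self, h1]; norm_num
    nlinarith [mul_self_nonneg β, mul_self_nonneg γ]

theorem mul_le_abs {a b : ℝ} (h : |a| = 1) : a * b ≤ |b| := by
  calc a * b ≤ |a * b| := le_abs_self _
    _ = |b| := by rw [abs_mul, h, one_mul]

theorem facet_le {α β γ : ℝ} (h : IsFacet α β γ) :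
    ∀ x ∈ rhombicDodecahedron, α * x 0 + β * x 1 + γ * x 2 ≤ 2 := by
  rintro x ⟨h1, h2, h3⟩
  rcases h with ⟨a, b, rfl⟩ | ⟨rfl, a, b⟩ | ⟨a, rfl, b⟩
  · have := mul_le_abs (b := x 0) a
    have := mul_le_abs (b := x 1) b
    linarith
  · have := mul_le_abs (b := x 1) a
    have := mul_le_abs (b := x 2) b
    linarith
  · have := mul_le_abs (b := x 0) a
    have := mul_le_abs (b := x 2) b
    linarith

/-- If p illuminates a boundary point q then p violates every facet inequality tight at q. -/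
theorem illum_facet {α β γ : ℝ} (hf : IsFacet α β γ) (p q : E3)
    (hq : α * q 0 + β * q 1 + γ * q 2 = 2)
    (hill : ∃ t : ℝ, 0 < t ∧ q + t • (q - p) ∈ interior rhombicDodecahedron) :
    2 < α * p 0 + β * p 1 + γ * p 2 :=
  illum_gt α β γ (facet_pos hf) (facet_le hf) p q hq hill

theorem frontier_of_facet {α β γ : ℝ} (hf : IsFacet α β γ) (q : E3)
    (hqK : q ∈ rhombicDodecahedron) (hq : α * q 0 + β * q 1 + γ * q 2 = 2) :
    q ∈ frontier rhombicDodecahedron := by
  rw [frontier, rd_closed.closure_eq]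
  refine ⟨hqK, fun hint => ?_⟩
  have := interior_strict α β γ (facet_pos hf) (facet_le hf) q hint
  linarith

/-- Illumination condition for the vertex (1, 1, 1). -/
def C0 (x y z : ℝ) : Prop := 2 < x + y ∧ 2 < y + z ∧ 2 < x + z

/-- Illumination condition for the vertex (1, 1, -1). -/
def C1 (x y z : ℝ) : Prop := 2 < x + y ∧ 2 < y - z ∧ 2 < x - z

/-- Illumination condition for the vertex (1, -1, 1). -/
def C2 (x y z : ℝ) : Prop := 2 < x - y ∧ 2 < -y + z ∧ 2 < x + z

/-- Illumination condition for the vertex (1, -1, -1). -/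
def C3 (x y z : ℝ) : Prop := 2 < x - y ∧ 2 < -y - z ∧ 2 < x - z

/-- Illumination condition for the vertex (-1, 1, 1). -/
def C4 (x y z : ℝ) : Prop := 2 < -x + y ∧ 2 < y + z ∧ 2 < -x + z

/-- Illumination condition for the vertex (-1, 1, -1). -/
def C5 (x y z : ℝ) : Prop := 2 < -x + y ∧ 2 < y - z ∧ 2 < -x - z

/-- Illumination condition for the vertex (-1, -1, 1). -/
def C6 (x y z : ℝ) : Prop := 2 < -x - y ∧ 2 < -y + z ∧ 2 < -x + z

/-- Illumination condition for the vertex (-1, -1, -1). -/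
def C7 (x y z : ℝ) : Prop := 2 < -x - y ∧ 2 < -y - z ∧ 2 < -x - z

/-- Illumination condition for the vertex (2, 0, 0). -/
def C8 (x y z : ℝ) : Prop := 2 < x + y ∧ 2 < x - y ∧ 2 < x + z ∧ 2 < x - z

/-- Illumination condition for the vertex (-2, 0, 0). -/
def C9 (x y z : ℝ) : Prop := 2 < -x + y ∧ 2 < -x - y ∧ 2 < -x + z ∧ 2 < -x - z

/-- Illumination condition for the vertex (0, 2, 0). -/
def C10 (x y z : ℝ) : Prop := 2 < x + y ∧ 2 < -x + y ∧ 2 < y + z ∧ 2 < y - z

/-- Illumination condition for the vertex (0, -2, 0). -/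
def C11 (x y z : ℝ) : Prop := 2 < x - y ∧ 2 < -x - y ∧ 2 < -y + z ∧ 2 < -y - z

/-- Illumination condition for the vertex (0, 0, 2). -/
def C12 (x y z : ℝ) : Prop := 2 < y + z ∧ 2 < -y + z ∧ 2 < x + z ∧ 2 < -x + z

/-- Illumination condition for the vertex (0, 0, -2). -/
def C13 (x y z : ℝ) : Prop := 2 < y - z ∧ 2 < -y - z ∧ 2 < x - z ∧ 2 < -x - z

open Classical in
/-- Number of illuminated vertices. -/
noncomputable def F (x y z : ℝ) : ℝ :=
  (if C0 x y z then (1 : ℝ) else 0) +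
  (if C1 x y z then (1 : ℝ) else 0) +
  (if C2 x y z then (1 : ℝ) else 0) +
  (if C3 x y z then (1 : ℝ) else 0) +
  (if C4 x y z then (1 : ℝ) else 0) +
  (if C5 x y z then (1 : ℝ) else 0) +
  (if C6 x y z then (1 : ℝ) else 0) +
  (if C7 x y z then (1 : ℝ) else 0) +
  (if C8 x y z then (1 : ℝ) else 0) +
  (if C9 x y z then (1 : ℝ) else 0) +
  (if C10 x y z then (1 : ℝ) else 0) +
  (if C11 x y z then (1 : ℝ) else 0) +
  (if C12 x y z then (1 : ℝ) else 0) +
  (if C13 x y z then (1 : ℝ) else 0)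

set_option maxHeartbeats 4000000 in
theorem sum_le (x y z g i0 i1 i2 i3 i4 i5 i6 i7 i8 i9 i10 i11 i12 i13 : ℝ)
    (h0 : x + y ≤ 2 * g) (h1 : x - y ≤ 2 * g) (h2 : -x + y ≤ 2 * g) (h3 : -x - y ≤ 2 * g) (h4 : y + z ≤ 2 * g) (h5 : y - z ≤ 2 * g) (h6 : -y + z ≤ 2 * g) (h7 : -y - z ≤ 2 * g) (h8 : x + z ≤ 2 * g) (h9 : x - z ≤ 2 * g) (h10 : -x + z ≤ 2 * g) (h11 : -x - z ≤ 2 * g)
    (k0 : (C0 x y z ∧ i0 = 1) ∨ i0 = 0)
    (k1 : (C1 x y z ∧ i1 = 1) ∨ i1 = 0)
    (k2 : (C2 x y z ∧ i2 = 1) ∨ i2 = 0)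
    (k3 : (C3 x y z ∧ i3 = 1) ∨ i3 = 0)
    (k4 : (C4 x y z ∧ i4 = 1) ∨ i4 = 0)
    (k5 : (C5 x y z ∧ i5 = 1) ∨ i5 = 0)
    (k6 : (C6 x y z ∧ i6 = 1) ∨ i6 = 0)
    (k7 : (C7 x y z ∧ i7 = 1) ∨ i7 = 0)
    (k8 : (C8 x y z ∧ i8 = 1) ∨ i8 = 0)
    (k9 : (C9 x y z ∧ i9 = 1) ∨ i9 = 0)
    (k10 : (C10 x y z ∧ i10 = 1) ∨ i10 = 0)
    (k11 : (C11 x y z ∧ i11 = 1) ∨ i11 = 0)
    (k12 : (C12 x y z ∧ i12 = 1) ∨ i12 = 0)
    (k13 : (C13 x y z ∧ i13 = 1) ∨ i13 = 0) :
    i0 + i1 + i2 + i3 + i4 + i5 + i6 + i7 + i8 + i9 + i10 + i11 + i12 + i13 ≤ g := by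
  rcases k0 with ⟨⟨a0, a1, a2⟩, e⟩ | e
  all_goals try (exfalso; linarith)
  all_goals rcases k1 with ⟨⟨a0, a1, a2⟩, e⟩ | e
  all_goals try (exfalso; linarith)
  all_goals rcases k2 with ⟨⟨a0, a1, a2⟩, e⟩ | e
  all_goals try (exfalso; linarith)
  all_goals rcases k3 with ⟨⟨a0, a1, a2⟩, e⟩ | e
  all_goals try (exfalso; linarith)
  all_goals rcases k4 with ⟨⟨a0, a1, a2⟩, e⟩ | e
  all_goals try (exfalso; linarith)
  all_goals rcases k5 with ⟨⟨a0, a1, a2⟩, e⟩ | e
  all_goals try (exfalso; linarith)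
  all_goals rcases k6 with ⟨⟨a0, a1, a2⟩, e⟩ | e
  all_goals try (exfalso; linarith)
  all_goals rcases k7 with ⟨⟨a0, a1, a2⟩, e⟩ | e
  all_goals try (exfalso; linarith)
  all_goals rcases k8 with ⟨⟨a0, a1, a2, a3⟩, e⟩ | e
  all_goals try (exfalso; linarith)
  all_goals rcases k9 with ⟨⟨a0, a1, a2, a3⟩, e⟩ | e
  all_goals try (exfalso; linarith)
  all_goals rcases k10 with ⟨⟨a0, a1, a2, a3⟩, e⟩ | e
  all_goals try (exfalso; linarith)
  all_goals rcases k11 with ⟨⟨a0, a1, a2, a3⟩, e⟩ | e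
  all_goals try (exfalso; linarith)
  all_goals rcases k12 with ⟨⟨a0, a1, a2, a3⟩, e⟩ | e
  all_goals try (exfalso; linarith)
  all_goals rcases k13 with ⟨⟨a0, a1, a2, a3⟩, e⟩ | e
  all_goals try (exfalso; linarith)
  all_goals linarith

open Classical in
theorem F_le (x y z g : ℝ)
    (h0 : x + y ≤ 2 * g) (h1 : x - y ≤ 2 * g) (h2 : -x + y ≤ 2 * g) (h3 : -x - y ≤ 2 * g) (h4 : y + z ≤ 2 * g) (h5 : y - z ≤ 2 * g) (h6 : -y + z ≤ 2 * g) (h7 : -y - z ≤ 2 * g) (h8 : x + z ≤ 2 * g) (h9 : x - z ≤ 2 * g) (h10 : -x + z ≤ 2 * g) (h11 : -x - z ≤ 2 * g) :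
    F x y z ≤ g := by
  have hk : ∀ c : Prop, (c ∧ (if c then (1 : ℝ) else 0) = 1) ∨ (if c then (1 : ℝ) else 0) = 0 := by
    intro c
    by_cases h : c
    · left; exact ⟨h, by simp [h]⟩
    · right; simp [h]
  exact sum_le x y z g _ _ _ _ _ _ _ _ _ _ _ _ _ _ h0 h1 h2 h3 h4 h5 h6 h7 h8 h9 h10 h11
    (hk _) (hk _) (hk _) (hk _) (hk _) (hk _) (hk _) (hk _) (hk _) (hk _) (hk _) (hk _) (hk _) (hk _)

open Classical in
theorem one_le_sum (P : Finset E3) (C : ℝ → ℝ → ℝ → Prop)
    (h : ∃ p ∈ P, C (p 0) (p 1) (p 2)) :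
    (1 : ℝ) ≤ ∑ p ∈ P, (if C (p 0) (p 1) (p 2) then (1 : ℝ) else 0) := by
  obtain ⟨p, hp, hC⟩ := h
  have h1 : (if C (p 0) (p 1) (p 2) then (1 : ℝ) else 0) = 1 := by simp [hC]
  have h2 : (if C (p 0) (p 1) (p 2) then (1 : ℝ) else 0) ≤
      ∑ p ∈ P, (if C (p 0) (p 1) (p 2) then (1 : ℝ) else 0) := by
    apply Finset.single_le_sum (f := fun p : E3 =>
      (if C (p 0) (p 1) (p 2) then (1 : ℝ) else 0)) _ hp
    intro i _
    dsimp only
    split_ifs <;> norm_num
  linarith

/-- Every vertex is illuminated by a point which violates all facet inequalities tight at it. -/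
theorem vert (P : Set E3) (hP : IlluminatesBody rhombicDodecahedron P) (a b c : ℝ)
    (hK : |a| + |b| ≤ 2 ∧ |b| + |c| ≤ 2 ∧ |a| + |c| ≤ 2)
    (hf : ∃ α β γ, IsFacet α β γ ∧ α * a + β * b + γ * c = 2) :
    ∃ p ∈ P, ∀ α β γ, IsFacet α β γ → α * a + β * b + γ * c = 2 →
      2 < α * p 0 + β * p 1 + γ * p 2 := by
  let q : E3 := !₂[a, b, c]
  have q0 : q 0 = a := by simp [q]
  have q1 : q 1 = b := by simp [q]
  have q2 : q 2 = c := by simp [q]
  have hqK : q ∈ rhombicDodecahedron := by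
    refine ⟨?_, ?_, ?_⟩
    · rw [q0, q1]; exact hK.1
    · rw [q1, q2]; exact hK.2.1
    · rw [q0, q2]; exact hK.2.2
  obtain ⟨α, β, γ, h1, h2⟩ := hf
  have hfr : q ∈ frontier rhombicDodecahedron :=
    frontier_of_facet h1 q hqK (by rw [q0, q1, q2]; exact h2)
  obtain ⟨p, hp, hill⟩ := hP.2 q hfr
  have hpq : p ≠ q := by
    rintro rfl
    exact hP.1 _ hp hqK
  rw [illuminates_iff _ _ _ hpq] at hill
  refine ⟨p, hp, fun α β γ h3 h4 => ?_⟩
  exact illum_facet h3 p q (by rw [q0, q1, q2]; exact h4) hill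

theorem vert0 (P : Set E3) (hP : IlluminatesBody rhombicDodecahedron P) :
    ∃ p ∈ P, C0 (p 0) (p 1) (p 2) := by
  obtain ⟨p, hp, h⟩ := vert P hP (1) (1) (1) (by norm_num [abs_of_nonneg, abs_of_neg])
    ⟨1, 1, 0, by norm_num [IsFacet], by norm_num⟩
  have t0 := h (1) (1) (0) (by norm_num [IsFacet]) (by norm_num)
  have t1 := h (0) (1) (1) (by norm_num [IsFacet]) (by norm_num)
  have t2 := h (1) (0) (1) (by norm_num [IsFacet]) (by norm_num)
  exact ⟨p, hp, by linarith, by linarith, by linarith⟩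

theorem vert1 (P : Set E3) (hP : IlluminatesBody rhombicDodecahedron P) :
    ∃ p ∈ P, C1 (p 0) (p 1) (p 2) := by
  obtain ⟨p, hp, h⟩ := vert P hP (1) (1) (-1) (by norm_num [abs_of_nonneg, abs_of_neg])
    ⟨1, 1, 0, by norm_num [IsFacet], by norm_num⟩
  have t0 := h (1) (1) (0) (by norm_num [IsFacet]) (by norm_num)
  have t1 := h (0) (1) (-1) (by norm_num [IsFacet]) (by norm_num)
  have t2 := h (1) (0) (-1) (by norm_num [IsFacet]) (by norm_num)
  exact ⟨p, hp, by linarith, by linarith, by linarith⟩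

theorem vert2 (P : Set E3) (hP : IlluminatesBody rhombicDodecahedron P) :
    ∃ p ∈ P, C2 (p 0) (p 1) (p 2) := by
  obtain ⟨p, hp, h⟩ := vert P hP (1) (-1) (1) (by norm_num [abs_of_nonneg, abs_of_neg])
    ⟨1, -1, 0, by norm_num [IsFacet], by norm_num⟩
  have t0 := h (1) (-1) (0) (by norm_num [IsFacet]) (by norm_num)
  have t1 := h (0) (-1) (1) (by norm_num [IsFacet]) (by norm_num)
  have t2 := h (1) (0) (1) (by norm_num [IsFacet]) (by norm_num)
  exact ⟨p, hp, by linarith, by linarith, by linarith⟩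

theorem vert3 (P : Set E3) (hP : IlluminatesBody rhombicDodecahedron P) :
    ∃ p ∈ P, C3 (p 0) (p 1) (p 2) := by
  obtain ⟨p, hp, h⟩ := vert P hP (1) (-1) (-1) (by norm_num [abs_of_nonneg, abs_of_neg])
    ⟨1, -1, 0, by norm_num [IsFacet], by norm_num⟩
  have t0 := h (1) (-1) (0) (by norm_num [IsFacet]) (by norm_num)
  have t1 := h (0) (-1) (-1) (by norm_num [IsFacet]) (by norm_num)
  have t2 := h (1) (0) (-1) (by norm_num [IsFacet]) (by norm_num)
  exact ⟨p, hp, by linarith, by linarith, by linarith⟩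

theorem vert4 (P : Set E3) (hP : IlluminatesBody rhombicDodecahedron P) :
    ∃ p ∈ P, C4 (p 0) (p 1) (p 2) := by
  obtain ⟨p, hp, h⟩ := vert P hP (-1) (1) (1) (by norm_num [abs_of_nonneg, abs_of_neg])
    ⟨-1, 1, 0, by norm_num [IsFacet], by norm_num⟩
  have t0 := h (-1) (1) (0) (by norm_num [IsFacet]) (by norm_num)
  have t1 := h (0) (1) (1) (by norm_num [IsFacet]) (by norm_num)
  have t2 := h (-1) (0) (1) (by norm_num [IsFacet]) (by norm_num)
  exact ⟨p, hp, by linarith, by linarith, by linarith⟩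

theorem vert5 (P : Set E3) (hP : IlluminatesBody rhombicDodecahedron P) :
    ∃ p ∈ P, C5 (p 0) (p 1) (p 2) := by
  obtain ⟨p, hp, h⟩ := vert P hP (-1) (1) (-1) (by norm_num [abs_of_nonneg, abs_of_neg])
    ⟨-1, 1, 0, by norm_num [IsFacet], by norm_num⟩
  have t0 := h (-1) (1) (0) (by norm_num [IsFacet]) (by norm_num)
  have t1 := h (0) (1) (-1) (by norm_num [IsFacet]) (by norm_num)
  have t2 := h (-1) (0) (-1) (by norm_num [IsFacet]) (by norm_num)
  exact ⟨p, hp, by linarith, by linarith, by linarith⟩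

theorem vert6 (P : Set E3) (hP : IlluminatesBody rhombicDodecahedron P) :
    ∃ p ∈ P, C6 (p 0) (p 1) (p 2) := by
  obtain ⟨p, hp, h⟩ := vert P hP (-1) (-1) (1) (by norm_num [abs_of_nonneg, abs_of_neg])
    ⟨-1, -1, 0, by norm_num [IsFacet], by norm_num⟩
  have t0 := h (-1) (-1) (0) (by norm_num [IsFacet]) (by norm_num)
  have t1 := h (0) (-1) (1) (by norm_num [IsFacet]) (by norm_num)
  have t2 := h (-1) (0) (1) (by norm_num [IsFacet]) (by norm_num)
  exact ⟨p, hp, by linarith, by linarith, by linarith⟩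

theorem vert7 (P : Set E3) (hP : IlluminatesBody rhombicDodecahedron P) :
    ∃ p ∈ P, C7 (p 0) (p 1) (p 2) := by
  obtain ⟨p, hp, h⟩ := vert P hP (-1) (-1) (-1) (by norm_num [abs_of_nonneg, abs_of_neg])
    ⟨-1, -1, 0, by norm_num [IsFacet], by norm_num⟩
  have t0 := h (-1) (-1) (0) (by norm_num [IsFacet]) (by norm_num)
  have t1 := h (0) (-1) (-1) (by norm_num [IsFacet]) (by norm_num)
  have t2 := h (-1) (0) (-1) (by norm_num [IsFacet]) (by norm_num)
  exact ⟨p, hp, by linarith, by linarith, by linarith⟩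

theorem vert8 (P : Set E3) (hP : IlluminatesBody rhombicDodecahedron P) :
    ∃ p ∈ P, C8 (p 0) (p 1) (p 2) := by
  obtain ⟨p, hp, h⟩ := vert P hP (2) (0) (0) (by norm_num [abs_of_nonneg, abs_of_neg])
    ⟨1, 1, 0, by norm_num [IsFacet], by norm_num⟩
  have t0 := h (1) (1) (0) (by norm_num [IsFacet]) (by norm_num)
  have t1 := h (1) (-1) (0) (by norm_num [IsFacet]) (by norm_num)
  have t2 := h (1) (0) (1) (by norm_num [IsFacet]) (by norm_num)
  have t3 := h (1) (0) (-1) (by norm_num [IsFacet]) (by norm_num)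
  exact ⟨p, hp, by linarith, by linarith, by linarith, by linarith⟩

theorem vert9 (P : Set E3) (hP : IlluminatesBody rhombicDodecahedron P) :
    ∃ p ∈ P, C9 (p 0) (p 1) (p 2) := by
  obtain ⟨p, hp, h⟩ := vert P hP (-2) (0) (0) (by norm_num [abs_of_nonneg, abs_of_neg])
    ⟨-1, 1, 0, by norm_num [IsFacet], by norm_num⟩
  have t0 := h (-1) (1) (0) (by norm_num [IsFacet]) (by norm_num)
  have t1 := h (-1) (-1) (0) (by norm_num [IsFacet]) (by norm_num)
  have t2 := h (-1) (0) (1) (by norm_num [IsFacet]) (by norm_num)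
  have t3 := h (-1) (0) (-1) (by norm_num [IsFacet]) (by norm_num)
  exact ⟨p, hp, by linarith, by linarith, by linarith, by linarith⟩

theorem vert10 (P : Set E3) (hP : IlluminatesBody rhombicDodecahedron P) :
    ∃ p ∈ P, C10 (p 0) (p 1) (p 2) := by
  obtain ⟨p, hp, h⟩ := vert P hP (0) (2) (0) (by norm_num [abs_of_nonneg, abs_of_neg])
    ⟨1, 1, 0, by norm_num [IsFacet], by norm_num⟩
  have t0 := h (1) (1) (0) (by norm_num [IsFacet]) (by norm_num)
  have t1 := h (-1) (1) (0) (by norm_num [IsFacet]) (by norm_num)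
  have t2 := h (0) (1) (1) (by norm_num [IsFacet]) (by norm_num)
  have t3 := h (0) (1) (-1) (by norm_num [IsFacet]) (by norm_num)
  exact ⟨p, hp, by linarith, by linarith, by linarith, by linarith⟩

theorem vert11 (P : Set E3) (hP : IlluminatesBody rhombicDodecahedron P) :
    ∃ p ∈ P, C11 (p 0) (p 1) (p 2) := by
  obtain ⟨p, hp, h⟩ := vert P hP (0) (-2) (0) (by norm_num [abs_of_nonneg, abs_of_neg])
    ⟨1, -1, 0, by norm_num [IsFacet], by norm_num⟩
  have t0 := h (1) (-1) (0) (by norm_num [IsFacet]) (by norm_num)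
  have t1 := h (-1) (-1) (0) (by norm_num [IsFacet]) (by norm_num)
  have t2 := h (0) (-1) (1) (by norm_num [IsFacet]) (by norm_num)
  have t3 := h (0) (-1) (-1) (by norm_num [IsFacet]) (by norm_num)
  exact ⟨p, hp, by linarith, by linarith, by linarith, by linarith⟩

theorem vert12 (P : Set E3) (hP : IlluminatesBody rhombicDodecahedron P) :
    ∃ p ∈ P, C12 (p 0) (p 1) (p 2) := by
  obtain ⟨p, hp, h⟩ := vert P hP (0) (0) (2) (by norm_num [abs_of_nonneg, abs_of_neg])
    ⟨0, 1, 1, by norm_num [IsFacet], by norm_num⟩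
  have t0 := h (0) (1) (1) (by norm_num [IsFacet]) (by norm_num)
  have t1 := h (0) (-1) (1) (by norm_num [IsFacet]) (by norm_num)
  have t2 := h (1) (0) (1) (by norm_num [IsFacet]) (by norm_num)
  have t3 := h (-1) (0) (1) (by norm_num [IsFacet]) (by norm_num)
  exact ⟨p, hp, by linarith, by linarith, by linarith, by linarith⟩

theorem vert13 (P : Set E3) (hP : IlluminatesBody rhombicDodecahedron P) :
    ∃ p ∈ P, C13 (p 0) (p 1) (p 2) := by
  obtain ⟨p, hp, h⟩ := vert P hP (0) (0) (-2) (by norm_num [abs_of_nonneg, abs_of_neg])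
    ⟨0, 1, -1, by norm_num [IsFacet], by norm_num⟩
  have t0 := h (0) (1) (-1) (by norm_num [IsFacet]) (by norm_num)
  have t1 := h (0) (-1) (-1) (by norm_num [IsFacet]) (by norm_num)
  have t2 := h (1) (0) (-1) (by norm_num [IsFacet]) (by norm_num)
  have t3 := h (-1) (0) (-1) (by norm_num [IsFacet]) (by norm_num)
  exact ⟨p, hp, by linarith, by linarith, by linarith, by linarith⟩

theorem F_le_norm (p : E3) : F (p 0) (p 1) (p 2) ≤ normK rhombicDodecahedron p := by
  have g0 := norm_ge (1) (1) (0) (facet_le (by norm_num [IsFacet])) p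
  have g1 := norm_ge (1) (-1) (0) (facet_le (by norm_num [IsFacet])) p
  have g2 := norm_ge (-1) (1) (0) (facet_le (by norm_num [IsFacet])) p
  have g3 := norm_ge (-1) (-1) (0) (facet_le (by norm_num [IsFacet])) p
  have g4 := norm_ge (0) (1) (1) (facet_le (by norm_num [IsFacet])) p
  have g5 := norm_ge (0) (1) (-1) (facet_le (by norm_num [IsFacet])) p
  have g6 := norm_ge (0) (-1) (1) (facet_le (by norm_num [IsFacet])) p
  have g7 := norm_ge (0) (-1) (-1) (facet_le (by norm_num [IsFacet])) p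
  have g8 := norm_ge (1) (0) (1) (facet_le (by norm_num [IsFacet])) p
  have g9 := norm_ge (1) (0) (-1) (facet_le (by norm_num [IsFacet])) p
  have g10 := norm_ge (-1) (0) (1) (facet_le (by norm_num [IsFacet])) p
  have g11 := norm_ge (-1) (0) (-1) (facet_le (by norm_num [IsFacet])) p
  apply F_le <;> linarith

/-- The sum of the norms of the points of a set illuminating the body is at least 14. -/
theorem fourteen_le (P : Set E3) (hP : IlluminatesBody rhombicDodecahedron P) :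
    (14 : ENNReal) ≤ ∑' p : P, ENNReal.ofReal (normK rhombicDodecahedron p) := by
  classical
  obtain ⟨p0, m0, c0⟩ := vert0 P hP
  obtain ⟨p1, m1, c1⟩ := vert1 P hP
  obtain ⟨p2, m2, c2⟩ := vert2 P hP
  obtain ⟨p3, m3, c3⟩ := vert3 P hP
  obtain ⟨p4, m4, c4⟩ := vert4 P hP
  obtain ⟨p5, m5, c5⟩ := vert5 P hP
  obtain ⟨p6, m6, c6⟩ := vert6 P hP
  obtain ⟨p7, m7, c7⟩ := vert7 P hP
  obtain ⟨p8, m8, c8⟩ := vert8 P hP
  obtain ⟨p9, m9, c9⟩ := vert9 P hP
  obtain ⟨p10, m10, c10⟩ := vert10 P hP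
  obtain ⟨p11, m11, c11⟩ := vert11 P hP
  obtain ⟨p12, m12, c12⟩ := vert12 P hP
  obtain ⟨p13, m13, c13⟩ := vert13 P hP
  let S : Finset E3 := {p0, p1, p2, p3, p4, p5, p6, p7, p8, p9, p10, p11, p12, p13}
  have hS : (S : Set E3) ⊆ P := by
    intro p hp
    simp only [S, Finset.coe_insert, Finset.coe_singleton, Set.mem_insert_iff,
      Set.mem_singleton_iff] at hp
    rcases hp with rfl | rfl | rfl | rfl | rfl | rfl | rfl | rfl | rfl | rfl | rfl | rfl | rfl | rfl <;>
      assumption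
  have h14 : (14 : ℝ) ≤ ∑ p ∈ S, F (p 0) (p 1) (p 2) := by
    simp only [F, Finset.sum_add_distrib]
    have s0 := one_le_sum S C0 ⟨p0, by simp [S], c0⟩
    have s1 := one_le_sum S C1 ⟨p1, by simp [S], c1⟩
    have s2 := one_le_sum S C2 ⟨p2, by simp [S], c2⟩
    have s3 := one_le_sum S C3 ⟨p3, by simp [S], c3⟩
    have s4 := one_le_sum S C4 ⟨p4, by simp [S], c4⟩
    have s5 := one_le_sum S C5 ⟨p5, by simp [S], c5⟩
    have s6 := one_le_sum S C6 ⟨p6, by simp [S], c6⟩
    have s7 := one_le_sum S C7 ⟨p7, by simp [S], c7⟩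
    have s8 := one_le_sum S C8 ⟨p8, by simp [S], c8⟩
    have s9 := one_le_sum S C9 ⟨p9, by simp [S], c9⟩
    have s10 := one_le_sum S C10 ⟨p10, by simp [S], c10⟩
    have s11 := one_le_sum S C11 ⟨p11, by simp [S], c11⟩
    have s12 := one_le_sum S C12 ⟨p12, by simp [S], c12⟩
    have s13 := one_le_sum S C13 ⟨p13, by simp [S], c13⟩
    linarith
  have h15 : (14 : ℝ) ≤ ∑ p ∈ S, normK rhombicDodecahedron p :=
    h14.trans (Finset.sum_le_sum fun p _ => F_le_norm p)
  calc (14 : ENNReal) = ENNReal.ofReal 14 := by norm_num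
    _ ≤ ENNReal.ofReal (∑ p ∈ S, normK rhombicDodecahedron p) := ENNReal.ofReal_le_ofReal h15
    _ = ∑ p ∈ S, ENNReal.ofReal (normK rhombicDodecahedron p) :=
        ENNReal.ofReal_sum_of_nonneg fun p _ => gauge_nonneg (s := rhombicDodecahedron) p
    _ = ∑' p : (S : Set E3), ENNReal.ofReal (normK rhombicDodecahedron p) :=
        (Finset.tsum_subtype' S fun p => ENNReal.ofReal (normK rhombicDodecahedron p)).symm
    _ ≤ ∑' p : P, ENNReal.ofReal (normK rhombicDodecahedron p) :=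
        ENNReal.tsum_mono_subtype (fun p => ENNReal.ofReal (normK rhombicDodecahedron p)) hS

/-! ### Upper bound -/

/-- The sign attached to a Boolean. -/
def sg (b : Bool) : ℝ := if b then 1 else -1

theorem abs_sg (b : Bool) : |sg b| = 1 := by
  cases b <;> simp [sg]

theorem sg_decide (x : ℝ) : sg (decide (0 ≤ x)) * |x| = x := by
  by_cases h : 0 ≤ x
  · simp [sg, h, abs_of_nonneg h]
  · simp [sg, h, abs_of_neg (not_le.1 h)]

/-- The 14 vertices. -/
noncomputable def vtx : (Bool × Bool × Bool) ⊕ (Fin 3 × Bool) → E3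
  | Sum.inl (a, b, c) => !₂[sg a, sg b, sg c]
  | Sum.inr (i, b) => EuclideanSpace.single i (2 * sg b)

theorem vtx_mem (i : (Bool × Bool × Bool) ⊕ (Fin 3 × Bool)) : vtx i ∈ rhombicDodecahedron := by
  rcases i with ⟨a, b, c⟩ | ⟨i, b⟩
  · refine ⟨?_, ?_, ?_⟩ <;> simp [vtx, abs_sg] <;> norm_num
  · refine ⟨?_, ?_, ?_⟩ <;> fin_cases i <;> simp [vtx, abs_mul, abs_sg]

/-- Every vertex lies on one of the facets. -/
theorem vtx_tight (i : (Bool × Bool × Bool) ⊕ (Fin 3 × Bool)) :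
    2 ≤ |vtx i 0| + |vtx i 1| ∨ 2 ≤ |vtx i 1| + |vtx i 2| := by
  rcases i with ⟨a, b, c⟩ | ⟨i, b⟩
  · left
    simp [vtx, abs_sg]
    norm_num
  · fin_cases i
    · left; simp [vtx, abs_mul, abs_sg]
    · left; simp [vtx, abs_mul, abs_sg]
    · right; simp [vtx, abs_mul, abs_sg]

theorem out_of_body {ε : ℝ} (hε : 0 < ε) (i : (Bool × Bool × Bool) ⊕ (Fin 3 × Bool)) :
    (1 + ε) • vtx i ∉ rhombicDodecahedron := by
  rintro ⟨h1, h2, h3⟩
  have e : ∀ j, |((1 + ε) • vtx i) j| = (1 + ε) * |vtx i j| := by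
    intro j
    have : ((1 + ε) • vtx i) j = (1 + ε) * vtx i j := by simp
    rw [this, abs_mul, abs_of_pos (by linarith : (0 : ℝ) < 1 + ε)]
  rw [e, e] at h1 h2
  rcases vtx_tight i with h | h <;> nlinarith

theorem abs_pair {a b t ε : ℝ} (ha : 0 ≤ a) (hb : 0 ≤ b) (hab : a + b ≤ 2)
    (ha2 : a * (1 + t) < 2) (hb2 : b * (1 + t) < 2) (ht : 0 < t) (hε : 0 < ε)
    (ht1 : t * (1 + ε) < 1) :
    |a + t * (a - (1 + ε))| + |b + t * (b - (1 + ε))| < 2 := by
  have h1 : (a + b) * (1 + t) ≤ 2 * (1 + t) := mul_le_mul_of_nonneg_right hab (by linarith)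
  have h2 : 0 < t * ε := mul_pos ht hε
  have h3 : 0 ≤ a * (1 + t) := mul_nonneg ha (by linarith)
  have h4 : 0 ≤ b * (1 + t) := mul_nonneg hb (by linarith)
  rcases abs_cases (a + t * (a - (1 + ε))) with ⟨e1, -⟩ | ⟨e1, -⟩ <;>
  rcases abs_cases (b + t * (b - (1 + ε))) with ⟨e2, -⟩ | ⟨e2, -⟩ <;>
  rw [e1, e2] <;> nlinarith

theorem exists_t {M ε : ℝ} (hM : M < 2) (hM0 : 0 ≤ M) (hε : 0 < ε) :
    ∃ t : ℝ, 0 < t ∧ M * (1 + t) < 2 ∧ t * (1 + ε) < 1 := by
  refine ⟨min ((2 - M) / 4) (1 / (2 * (1 + ε))), ?_, ?_, ?_⟩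
  · apply lt_min
    · linarith
    · positivity
  · have h1 : min ((2 - M) / 4) (1 / (2 * (1 + ε))) ≤ (2 - M) / 4 := min_le_left _ _
    nlinarith [mul_le_mul_of_nonneg_left h1 hM0]
  · have h1 : min ((2 - M) / 4) (1 / (2 * (1 + ε))) ≤ 1 / (2 * (1 + ε)) := min_le_right _ _
    have h2 : min ((2 - M) / 4) (1 / (2 * (1 + ε))) * (1 + ε) ≤ 1 / (2 * (1 + ε)) * (1 + ε) :=
      mul_le_mul_of_nonneg_right h1 (by linarith)
    have h3 : 1 / (2 * (1 + ε)) * (1 + ε) = 1 / 2 := by
      field_simp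
    linarith

/-- A point of the body with all coordinates less than 2 in absolute value is illuminated by a
point near a vertex of the form (±1,±1,±1). -/
theorem illum_cube {ε : ℝ} (hε : 0 < ε) (q : E3) (hq : q ∈ rhombicDodecahedron)
    (h0 : |q 0| < 2) (h1 : |q 1| < 2) (h2 : |q 2| < 2) :
    ∃ i, ∃ t : ℝ, 0 < t ∧ q + t • (q - (1 + ε) • vtx i) ∈ interior rhombicDodecahedron := by
  obtain ⟨k1, k2, k3⟩ := hq
  have hM : max |q 0| (max |q 1| |q 2|) < 2 := max_lt h0 (max_lt h1 h2)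
  have hM0 : 0 ≤ max |q 0| (max |q 1| |q 2|) := (abs_nonneg _).trans (le_max_left _ _)
  obtain ⟨t, ht, htM, ht1⟩ := exists_t hM hM0 hε
  have hb : ∀ a, a ≤ max |q 0| (max |q 1| |q 2|) → a * (1 + t) < 2 := by
    intro a ha
    exact lt_of_le_of_lt (mul_le_mul_of_nonneg_right ha (by linarith)) htM
  have b0 := hb |q 0| (le_max_left _ _)
  have b1 := hb |q 1| ((le_max_left _ _).trans (le_max_right _ _))
  have b2 := hb |q 2| ((le_max_right _ _).trans (le_max_right _ _))
  refine ⟨Sum.inl (decide (0 ≤ q 0), decide (0 ≤ q 1), decide (0 ≤ q 2)), t, ht, ?_⟩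
  have e : ∀ (x : ℝ), |x + t * (x - (1 + ε) * sg (decide (0 ≤ x)))| =
      abs (|x| + t * (|x| - (1 + ε))) := by
    intro x
    have h3 := sg_decide x
    have h4 : x + t * (x - (1 + ε) * sg (decide (0 ≤ x))) =
        sg (decide (0 ≤ x)) * (|x| + t * (|x| - (1 + ε))) := by
      calc x + t * (x - (1 + ε) * sg (decide (0 ≤ x)))
          = sg (decide (0 ≤ x)) * |x| + t * (sg (decide (0 ≤ x)) * |x| -
            (1 + ε) * sg (decide (0 ≤ x))) := by rw [h3]
        _ = _ := by ring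
    rw [h4, abs_mul, abs_sg, one_mul]
  have c0 : (q + t • (q - (1 + ε) • vtx (Sum.inl (decide (0 ≤ q 0), decide (0 ≤ q 1),
      decide (0 ≤ q 2))))) 0 = q 0 + t * (q 0 - (1 + ε) * sg (decide (0 ≤ q 0))) := by
    simp [vtx]
  have c1 : (q + t • (q - (1 + ε) • vtx (Sum.inl (decide (0 ≤ q 0), decide (0 ≤ q 1),
      decide (0 ≤ q 2))))) 1 = q 1 + t * (q 1 - (1 + ε) * sg (decide (0 ≤ q 1))) := by
    simp [vtx]
  have c2 : (q + t • (q - (1 + ε) • vtx (Sum.inl (decide (0 ≤ q 0), decide (0 ≤ q 1),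
      decide (0 ≤ q 2))))) 2 = q 2 + t * (q 2 - (1 + ε) * sg (decide (0 ≤ q 2))) := by
    simp [vtx]
  apply mem_interior
  · rw [c0, c1, e, e]
    exact abs_pair (abs_nonneg _) (abs_nonneg _) k1 b0 b1 ht hε ht1
  · rw [c1, c2, e, e]
    exact abs_pair (abs_nonneg _) (abs_nonneg _) k2 b1 b2 ht hε ht1
  · rw [c0, c2, e, e]
    exact abs_pair (abs_nonneg _) (abs_nonneg _) k3 b0 b2 ht hε ht1

/-- A vertex on a coordinate axis is illuminated by a point near it. -/
theorem illum_axis {ε : ℝ} (hε : 0 < ε) (q : E3) (i : Fin 3) (hi : 2 ≤ |q i|)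
    (hle : |q i| ≤ 2) (hz : ∀ j, j ≠ i → q j = 0) :
    ∃ i, ∃ t : ℝ, 0 < t ∧ q + t • (q - (1 + ε) • vtx i) ∈ interior rhombicDodecahedron := by
  have habs : |q i| = 2 := le_antisymm hle hi
  have hq : q = vtx (Sum.inr (i, decide (0 ≤ q i))) := by
    ext j
    have h3 := sg_decide (q i)
    rw [habs] at h3
    by_cases hj : j = i
    · subst hj
      simp only [vtx, PiLp.single_apply, if_true]
      linarith
    · rw [hz j hj]
      simp [vtx, hj]
  refine ⟨Sum.inr (i, decide (0 ≤ q i)), 1 / ε, by positivity, ?_⟩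
  rw [← hq]
  have : q + (1 / ε) • (q - (1 + ε) • q) = 0 := by
    have h5 : q - (1 + ε) • q = (-ε) • q := by
      rw [add_smul, one_smul, neg_smul]; abel
    rw [h5, smul_smul]
    have h6 : 1 / ε * -ε = -1 := by field_simp
    rw [h6, neg_smul, one_smul, add_neg_cancel]
  rw [this]
  exact zero_mem_interior

theorem illum_point {ε : ℝ} (hε : 0 < ε) (q : E3) (hq : q ∈ rhombicDodecahedron) :
    ∃ i, ∃ t : ℝ, 0 < t ∧ q + t • (q - (1 + ε) • vtx i) ∈ interior rhombicDodecahedron := by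
  have hq' := hq
  obtain ⟨k1, k2, k3⟩ := hq'
  have a0 := abs_nonneg (q 0)
  have a1 := abs_nonneg (q 1)
  have a2 := abs_nonneg (q 2)
  have hz : ∀ x : ℝ, |x| ≤ 0 → x = 0 := fun x hx => abs_eq_zero.mp (le_antisymm hx (abs_nonneg x))
  by_cases h0 : 2 ≤ |q 0|
  · refine illum_axis hε q 0 h0 (by linarith) ?_
    intro j hj
    fin_cases j
    · exact absurd rfl hj
    · exact hz _ (by simp only [Fin.mk_one]; linarith)
    · exact hz _ (by simp only [Fin.reduceFinMk]; linarith)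
  by_cases h1 : 2 ≤ |q 1|
  · refine illum_axis hε q 1 h1 (by linarith) ?_
    intro j hj
    fin_cases j
    · exact hz _ (by simp only [Fin.zero_eta]; linarith)
    · exact absurd rfl hj
    · exact hz _ (by simp only [Fin.reduceFinMk]; linarith)
  by_cases h2 : 2 ≤ |q 2|
  · refine illum_axis hε q 2 h2 (by linarith) ?_
    intro j hj
    fin_cases j
    · exact hz _ (by simp only [Fin.zero_eta]; linarith)
    · exact hz _ (by simp only [Fin.mk_one]; linarith)
    · exact absurd rfl hj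
  exact illum_cube hε q hq (not_le.mp h0) (not_le.mp h1) (not_le.mp h2)

theorem ill_le {ε : ℝ} (hε : 0 < ε) :
    ill rhombicDodecahedron ≤ 14 * ENNReal.ofReal (1 + ε) := by
  classical
  let S : Finset E3 := Finset.univ.image fun i => (1 + ε) • vtx i
  have hS : IlluminatesBody rhombicDodecahedron (S : Set E3) := by
    constructor
    · intro p hp
      obtain ⟨i, -, rfl⟩ := Finset.mem_image.mp (Finset.mem_coe.mp hp)
      exact out_of_body hε i
    · intro q hq
      have hqK : q ∈ rhombicDodecahedron := rd_closed.frontier_subset hq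
      obtain ⟨i, hi⟩ := illum_point hε q hqK
      refine ⟨(1 + ε) • vtx i, Finset.mem_coe.mpr (Finset.mem_image_of_mem _ (Finset.mem_univ i)),
        ?_⟩
      rw [illuminates_iff]
      · exact hi
      · rintro h
        exact out_of_body hε i (h ▸ hqK)
  have hnorm : ∀ p ∈ S, ENNReal.ofReal (normK rhombicDodecahedron p) ≤
      ENNReal.ofReal (1 + ε) := by
    intro p hp
    obtain ⟨i, -, rfl⟩ := Finset.mem_image.mp hp
    apply ENNReal.ofReal_le_ofReal
    exact gauge_le_of_mem (by linarith) (Set.smul_mem_smul_set (vtx_mem i))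
  have hcard : S.card ≤ 14 := by
    refine Finset.card_image_le.trans ?_
    simp
  calc ill rhombicDodecahedron
      ≤ ∑' p : (S : Set E3), ENNReal.ofReal (normK rhombicDodecahedron p) :=
        iInf₂_le (S : Set E3) hS
    _ = ∑ p ∈ S, ENNReal.ofReal (normK rhombicDodecahedron p) :=
        Finset.tsum_subtype' S fun p => ENNReal.ofReal (normK rhombicDodecahedron p)
    _ ≤ S.card • ENNReal.ofReal (1 + ε) := Finset.sum_le_card_nsmul _ _ _ hnorm
    _ ≤ 14 * ENNReal.ofReal (1 + ε) := by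
        rw [nsmul_eq_mul]
        exact mul_le_mul_left (by exact_mod_cast hcard) _

/-- The rhombic dodecahedron is an o-symmetric convex body in 3-space whose illumination parameter
is exactly 14, so the bound 12 fails. -/
theorem result :
    IsSymmetricConvexBody rhombicDodecahedron ∧ ill rhombicDodecahedron = 14 := by
  refine ⟨rd_body, le_antisymm ?_ ?_⟩
  · apply ENNReal.le_of_forall_pos_le_add
    intro ε hε _
    have h1 := ill_le (ε := (ε : ℝ) / 14) (by positivity)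
    refine h1.trans (le_of_eq ?_)
    rw [ENNReal.ofReal_add (by norm_num) (by positivity), mul_add,
      ENNReal.ofReal_div_of_pos (by norm_num), ENNReal.ofReal_coe_nnreal]
    have h14 : ENNReal.ofReal 14 = 14 := by norm_num
    rw [h14, ENNReal.ofReal_one, mul_one, ENNReal.mul_div_cancel (by norm_num) (by norm_num)]
  · exact le_iInf₂ fun P hP => fourteen_le P hP

end Pool.Agent.Results.MP_2a6d80_co.RhombicFourteen
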